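import Pool.Agent.Run7.h738.PC.Meas

/-! # The mean number of near-maximal sites, and the mass transport principle -/

set_option autoImplicit false
set_option linter.deprecated false

namespace Run7.h738.PC

open scoped Classical ENNReal
open Run7.h738.EX MeasureTheory

section mean
variable {V : Type} (L : Lay V)

theorem Ev_mono (o : V) {Φ Ψ : Set V → Prop} (h : ∀ C, Φ C → Ψ C) : Ev L o Φ ⊆ Ev L o Ψ :=
  fun _ hω => ⟨hω.1, h _ hω.2⟩

theorem KP_gt {p : NNReal} (h0 : 0 < p) (h1 : p < 1) : 1 < KP L p := by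
  have hq := q_pos L h0 h1
  have hq1 := q_le L h1
  unfold KP
  rw [lt_div_iff₀ hq]
  linarith

/-- an elementary inequality -/
theorem nat_le_ind {K : ℝ} (hK : 0 < K) (n : ℕ) :
    (n : ℝ≥0∞) ≤ ENNReal.ofReal K * (1 + ∑' j : ℕ, if K * (1 + j) < n then 1 else 0) := by
  set J := ⌈(n : ℝ) / K⌉₊ - 1 with hJ
  have h1 : ∀ j ∈ Finset.range J, K * (1 + (j : ℝ)) < n := by
    intro j hj
    rw [Finset.mem_range] at hj
    have h2 : j + 1 < ⌈(n : ℝ) / K⌉₊ := by omega
    rw [Nat.lt_ceil, lt_div_iff₀ hK] at h2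
    push_cast at h2
    linarith
  have h2 : (J : ℝ≥0∞) ≤ ∑' j : ℕ, if K * (1 + j) < n then (1 : ℝ≥0∞) else 0 := by
    refine le_trans ?_ (ENNReal.sum_le_tsum (Finset.range J))
    rw [Finset.sum_congr rfl (fun j hj => if_pos (h1 j hj)), Finset.sum_const, Finset.card_range]
    simp
  have h3 : (n : ℝ) ≤ K * (1 + J) := by
    have h4 := Nat.le_ceil ((n : ℝ) / K)
    rw [div_le_iff₀ hK] at h4
    have h5 : (⌈(n : ℝ) / K⌉₊ : ℝ) ≤ 1 + J := by
      have : ⌈(n : ℝ) / K⌉₊ ≤ 1 + J := by omega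
      exact_mod_cast this
    nlinarith
  calc (n : ℝ≥0∞) = ENNReal.ofReal n := by rw [ENNReal.ofReal_natCast]
    _ ≤ ENNReal.ofReal (K * (1 + J)) := ENNReal.ofReal_le_ofReal h3
    _ = ENNReal.ofReal K * (1 + J) := by
        rw [ENNReal.ofReal_mul hK.le, ENNReal.ofReal_add (by norm_num) (Nat.cast_nonneg _)]
        simp
    _ ≤ _ := by gcongr

/-- the sum of the probabilities is a mean -/
theorem sum_near [Countable V] (μ : Measure (Sym2 V → Bool)) (o : V) (Φ : Set V → Prop)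
    (y : ℕ) : ∑' v : V, μ (Ev L o (fun C => Φ C ∧ v ∈ nearS L y C)) =
      ∫⁻ ω, (if ω ∈ Ev L o Φ then ((nearS L y (Cl L ω o)).ncard : ℝ≥0∞) else 0) ∂μ := by
  have h1 : ∀ v, μ (Ev L o (fun C => Φ C ∧ v ∈ nearS L y C)) =
      ∫⁻ ω, (Ev L o (fun C => Φ C ∧ v ∈ nearS L y C)).indicator 1 ω ∂μ := by
    intro v
    rw [lintegral_indicator_one (Ev_meas L o _)]
  simp_rw [h1]
  rw [← lintegral_tsum (fun v => (measurable_one.indicator (Ev_meas L o _)).aemeasurable)]
  refine lintegral_congr fun ω => ?_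
  by_cases hω : ω ∈ Ev L o Φ
  · rw [if_pos hω]
    obtain ⟨hfin, hΦ⟩ := hω
    set A := hfin.toFinset with hA
    have hAC : (A : Set V) = Cl L ω o := hfin.coe_toFinset
    have h2 : ∀ v, (Ev L o (fun C => Φ C ∧ v ∈ nearS L y C)).indicator (1 : (Sym2 V → Bool) → ℝ≥0∞) ω =
        if v ∈ NMF L A y then 1 else 0 := by
      intro v
      have h3 : ω ∈ Ev L o (fun C => Φ C ∧ v ∈ nearS L y C) ↔ v ∈ NMF L A y := by
        rw [← Finset.mem_coe, ← nearS_coe, hAC]
        exact ⟨fun h => h.2.2, fun h => ⟨hfin, hΦ, h⟩⟩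
      by_cases h4 : v ∈ NMF L A y
      · rw [Set.indicator_of_mem (h3.2 h4), if_pos h4]
        rfl
      · rw [Set.indicator_of_notMem (fun h => h4 (h3.1 h)), if_neg h4]
    simp_rw [h2]
    rw [tsum_eq_sum (s := NMF L A y) (fun v hv => if_neg hv), ← hAC, nearS_coe,
      Set.ncard_coe_finset, Finset.sum_congr rfl (fun v hv => if_pos hv), Finset.sum_const]
    simp
  · rw [if_neg hω]
    rw [ENNReal.tsum_eq_zero]
    intro v
    exact Set.indicator_of_notMem (fun h => hω (Ev_mono L o (fun C h => h.1) h)) _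

/-- the lower bound -/
theorem mean_ge [Countable V] (μ : Measure (Sym2 V → Bool)) (o : V) (Φ : Set V → Prop) (y : ℕ) :
    μ (Ev L o Φ) ≤ ∑' v : V, μ (Ev L o (fun C => Φ C ∧ v ∈ nearS L y C)) := by
  rw [sum_near, ← lintegral_indicator_one (Ev_meas L o Φ)]
  refine lintegral_mono fun ω => ?_
  by_cases hω : ω ∈ Ev L o Φ
  · rw [Set.indicator_of_mem hω, if_pos hω]
    have hfin := hω.1
    set A := hfin.toFinset with hA
    have hAC : (A : Set V) = Cl L ω o := hfin.coe_toFinset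
    have hne : A.Nonempty := by
      refine ⟨o, ?_⟩
      rw [← Finset.mem_coe, hAC]
      exact self_Cl L ω o
    obtain ⟨M, ⟨v, hv, hvM⟩, hM⟩ := exists_MaxH L hne
    have h1 : 1 ≤ (nearS L y (Cl L ω o)).ncard := by
      rw [← hAC, nearS_coe, Set.ncard_coe_finset, Nat.succ_le_iff, Finset.card_pos]
      refine ⟨v, ?_⟩
      unfold NMF
      rw [Finset.mem_filter]
      refine ⟨hv, fun w hw => ?_⟩
      have := hM w hw
      omega
    show (1 : ℝ≥0∞) ≤ _
    exact_mod_cast h1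
  · rw [Set.indicator_of_notMem hω, if_neg hω]

theorem sum_exp : ∑' j : ℕ, ENNReal.ofReal (Real.exp (-(j : ℝ))) ≤ 2 := by
  have h1 : ∀ j : ℕ, ENNReal.ofReal (Real.exp (-(j : ℝ))) ≤ (2 : ℝ≥0∞)⁻¹ ^ j := by
    intro j
    have h2 : Real.exp (-(j : ℝ)) ≤ (2⁻¹ : ℝ) ^ j := by
      have h3 : Real.exp (-(j : ℝ)) = (Real.exp (-1)) ^ j := by
        rw [← Real.exp_nat_mul]
        congr 1
        ring
      rw [h3]
      refine pow_le_pow_left₀ (Real.exp_pos _).le ?_ j
      rw [Real.exp_neg]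
      refine inv_anti₀ (by norm_num) ?_
      have := Real.exp_one_gt_d9
      linarith
    refine (ENNReal.ofReal_le_ofReal h2).trans (le_of_eq ?_)
    rw [ENNReal.ofReal_pow (by norm_num), ENNReal.ofReal_inv_of_pos (by norm_num)]
    norm_num
  refine (ENNReal.tsum_le_tsum h1).trans (le_of_eq ?_)
  rw [ENNReal.tsum_geometric, ENNReal.one_sub_inv_two, inv_inv]

/-- the upper bound -/
theorem mean_le [Countable V] {p : NNReal} (h0 : 0 < p) (h1 : p < 1) (o : V)
    {Φ : Set V → Prop} (hΦ : ∀ A B : Set V, A ⊆ B → Φ A → Φ B) (y : ℕ) :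
    ∑' v : V, PB V p h1.le (Ev L o (fun C => Φ C ∧ v ∈ nearS L y C)) ≤
      ENNReal.ofReal (3 * KP L p ^ (1 + y)) * PB V p h1.le (Ev L o Φ) := by
  set μ := PB V p h1.le with hμ
  set K := KP L p ^ (1 + y) with hK
  have hK1 := KP_gt L h0 h1
  have hK0 : 0 < K := by positivity
  set F : ℕ → Set (Sym2 V → Bool) := fun j =>
    Ev L o (fun C => Φ C ∧ K * (1 + (j : ℝ)) < ((nearS L y C).ncard : ℝ)) with hF
  have hpt : ∀ ω, (if ω ∈ Ev L o Φ then ((nearS L y (Cl L ω o)).ncard : ℝ≥0∞) else 0) ≤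
      ENNReal.ofReal K * ((Ev L o Φ).indicator 1 ω + ∑' j : ℕ, (F j).indicator 1 ω) := by
    intro ω
    by_cases hω : ω ∈ Ev L o Φ
    · rw [if_pos hω, Set.indicator_of_mem hω]
      refine (nat_le_ind hK0 _).trans (le_of_eq ?_)
      congr 2
      refine tsum_congr fun j => ?_
      have h3 : ω ∈ F j ↔ K * (1 + (j : ℝ)) < ((nearS L y (Cl L ω o)).ncard : ℝ) :=
        ⟨fun h => h.2.2, fun h => ⟨hω.1, hω.2, h⟩⟩
      by_cases h4 : K * (1 + (j : ℝ)) < ((nearS L y (Cl L ω o)).ncard : ℝ)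
      · rw [if_pos h4, Set.indicator_of_mem (h3.2 h4)]
        rfl
      · rw [if_neg h4, Set.indicator_of_notMem (fun h => h4 (h3.1 h))]
    · rw [if_neg hω]
      exact bot_le
  rw [sum_near]
  refine (lintegral_mono hpt).trans ?_
  have hm : ∀ j, Measurable ((F j).indicator (1 : (Sym2 V → Bool) → ℝ≥0∞)) := fun j =>
    measurable_one.indicator (Ev_meas L o _)
  have hsum : Measurable (fun ω => (Ev L o Φ).indicator (1 : (Sym2 V → Bool) → ℝ≥0∞) ω +
      ∑' j : ℕ, (F j).indicator 1 ω) :=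
    (measurable_one.indicator (Ev_meas L o Φ)).add (Measurable.ennreal_tsum hm)
  rw [lintegral_const_mul _ hsum, lintegral_add_left (measurable_one.indicator (Ev_meas L o Φ)),
    lintegral_indicator_one (Ev_meas L o Φ), lintegral_tsum (fun j => (hm j).aemeasurable)]
  have h5 : ∑' j : ℕ, ∫⁻ ω, (F j).indicator 1 ω ∂μ ≤ 2 * μ (Ev L o Φ) := by
    calc ∑' j : ℕ, ∫⁻ ω, (F j).indicator 1 ω ∂μ
        ≤ ∑' j : ℕ, ENNReal.ofReal (Real.exp (-(j : ℝ))) * μ (Ev L o Φ) := by
          refine ENNReal.tsum_le_tsum fun j => ?_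
          rw [lintegral_indicator_one (Ev_meas L o _)]
          exact tail_perc L h0 h1 o hΦ y (Nat.cast_nonneg j)
      _ = (∑' j : ℕ, ENNReal.ofReal (Real.exp (-(j : ℝ)))) * μ (Ev L o Φ) :=
          ENNReal.tsum_mul_right
      _ ≤ 2 * μ (Ev L o Φ) := by
          gcongr
          exact sum_exp
  calc ENNReal.ofReal K * (μ (Ev L o Φ) + ∑' j : ℕ, ∫⁻ ω, (F j).indicator 1 ω ∂μ)
      ≤ ENNReal.ofReal K * (μ (Ev L o Φ) + 2 * μ (Ev L o Φ)) := by gcongr
    _ = ENNReal.ofReal (3 * K) * μ (Ev L o Φ) := by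
        rw [ENNReal.ofReal_mul (by norm_num), show ENNReal.ofReal 3 = 3 by norm_num]
        ring

end mean

section trans
variable {V : Type} [AddCommGroup V] [Countable V] (L : Lay V)
  (hadj : ∀ u v w : V, L.adj (v + u) (w + u) ↔ L.adj v w)

/-- translation of the configuration -/
def TT (u : V) (ω : Sym2 V → Bool) : Sym2 V → Bool := fun e => ω (Sym2.map (fun x => x + u) e)

include hadj

omit [Countable V] in
theorem Cl_TT (u : V) (ω : Sym2 V → Bool) (a : V) :
    Cl L (TT u ω) a = {x | x + u ∈ Cl L ω (a + u)} := by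
  have hst : ∀ v w, stp L (TT u ω) v w ↔ stp L ω (v + u) (w + u) := by
    intro v w
    unfold stp TT
    rw [hadj, Sym2.map_mk]
  ext x
  constructor
  · intro h
    exact Relation.ReflTransGen.lift (fun x => x + u) (fun v w h => (hst v w).1 h) _ _ h
  · intro h
    have h1 : Relation.ReflTransGen (stp L (TT u ω)) (a + u - u) (x + u - u) := by
      refine Relation.ReflTransGen.lift (fun x => x - u) (fun v w h => ?_) _ _ h
      show stp L (TT u ω) (v - u) (w - u)
      rw [hst, sub_add_cancel, sub_add_cancel]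
      exact h
    rw [add_sub_cancel_right, add_sub_cancel_right] at h1
    exact h1

theorem prob_TT (p : NNReal) (hp : p ≤ 1) (u a : V) (Ψ : Set V → Prop) :
    PB V p hp (Ev L a Ψ) = PB V p hp (Ev L (a + u) (fun C => Ψ {x | x + u ∈ C})) := by
  have hT : Measurable (TT u : (Sym2 V → Bool) → (Sym2 V → Bool)) :=
    measurable_pi_iff.2 fun e => measurable_pi_apply _
  have hinj : Function.Injective (Sym2.map (fun x : V => x + u)) :=
    Sym2.map.injective (add_left_injective u)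
  have hmap : (PB V p hp).map (TT u) = PB V p hp := by
    unfold PB TT
    exact Measure.map_infinitePi_infinitePi_of_inj hinj
  conv_lhs => rw [← hmap]
  rw [Measure.map_apply hT (Ev_meas L a Ψ)]
  congr 1
  ext ω
  have h1 := Cl_TT L hadj u ω a
  have hfin : (Cl L (TT u ω) a).Finite ↔ (Cl L ω (a + u)).Finite := by
    rw [h1]
    constructor
    · intro h
      have h2 := h.image (fun x => x + u)
      refine h2.subset ?_
      intro z hz
      refine ⟨z - u, ?_, by simp⟩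
      show z - u + u ∈ Cl L ω (a + u)
      rw [sub_add_cancel]
      exact hz
    · intro h
      exact h.preimage ((add_left_injective u).injOn)
  show (Cl L (TT u ω) a).Finite ∧ Ψ (Cl L (TT u ω) a) ↔ _
  rw [hfin, h1]
  exact Iff.rfl

omit [AddCommGroup V] [Countable V] hadj in
theorem Cl_symm {ω : Sym2 V → Bool} {a b : V} (h : b ∈ Cl L ω a) : Cl L ω b = Cl L ω a := by
  have hs : ∀ x y, Relation.ReflTransGen (stp L ω) x y → Relation.ReflTransGen (stp L ω) y x := by
    intro x y hxy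
    induction hxy with
    | refl => exact Relation.ReflTransGen.refl
    | tail _ h2 ih =>
      refine Relation.ReflTransGen.head ⟨L.symm _ _ h2.1, ?_⟩ ih
      rw [Sym2.eq_swap]
      exact h2.2
  ext x
  exact ⟨fun hx => Relation.ReflTransGen.trans h hx,
    fun hx => Relation.ReflTransGen.trans (hs _ _ h) hx⟩

variable (hh : ∀ u v : V, L.h (v + u) = L.h v + L.h u)
include hh

/-- one term of the mass transport -/
theorem term_eq (p : NNReal) (hp : p ≤ 1) (Φ : Set V → Prop) (y : ℕ) (x : V) :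
    PB V p hp (Ev L 0 (fun C => (∀ w ∈ C, L.h w ≤ y) ∧ x ∈ C ∧ Φ {z | z + x ∈ C})) =
      PB V p hp (Ev L 0 (fun C => Φ C ∧ -x ∈ nearS L y C)) := by
  have h00 : L.h 0 = 0 := by
    have := hh 0 0
    simp at this
    exact this
  have hneg : L.h (-x) = - L.h x := by
    have := hh x (-x)
    rw [neg_add_cancel, h00] at this
    omega
  rw [prob_TT L hadj p hp (-x) 0]
  congr 1
  ext ω
  rw [zero_add]
  unfold Ev
  simp only [Set.mem_setOf_eq]
  have e1 : {z : V | z + x + -x ∈ Cl L ω (-x)} = Cl L ω (-x) := by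
    ext z
    simp
  constructor
  · rintro ⟨h1, h2, h3, h4⟩
    have h5 : (0 : V) ∈ Cl L ω (-x) := by
      have : x + -x ∈ Cl L ω (-x) := h3
      rwa [add_neg_cancel] at this
    have h6 := Cl_symm L h5
    rw [h6]
    rw [e1] at h4
    refine ⟨h1, h4, self_Cl L ω _, ?_⟩
    intro w hw
    have h7 := h2 (w + x) (by
      show w + x + -x ∈ _
      simpa using hw)
    rw [hh] at h7
    rw [hneg]
    omega
  · rintro ⟨h1, h2, h3, h4⟩
    have h6 := Cl_symm L h3
    rw [h6]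
    rw [h6] at e1
    refine ⟨h1, ?_, ?_, ?_⟩
    · intro w hw
      have h7 := h4 _ hw
      rw [hh, hneg] at h7
      omega
    · show x + -x ∈ _
      rw [add_neg_cancel]
      exact self_Cl L ω 0
    · rw [e1]
      exact h2

/-- **Mass transport.** -/
theorem mass {p : NNReal} (h0 : 0 < p) (h1 : p < 1) {Φ : Set V → Prop}
    (hΦ : ∀ A B : Set V, A ⊆ B → Φ A → Φ B) (y : ℕ) :
    PB V p h1.le (Ev L 0 Φ) ≤ ∑' x : V,
      PB V p h1.le (Ev L 0 (fun C => (∀ w ∈ C, L.h w ≤ y) ∧ x ∈ C ∧ Φ {z | z + x ∈ C})) ∧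
    ∑' x : V, PB V p h1.le (Ev L 0 (fun C => (∀ w ∈ C, L.h w ≤ y) ∧ x ∈ C ∧ Φ {z | z + x ∈ C})) ≤
      ENNReal.ofReal (3 * KP L p ^ (1 + y)) * PB V p h1.le (Ev L 0 Φ) := by
  have h2 : ∑' x : V,
      PB V p h1.le (Ev L 0 (fun C => (∀ w ∈ C, L.h w ≤ y) ∧ x ∈ C ∧ Φ {z | z + x ∈ C})) =
      ∑' v : V, PB V p h1.le (Ev L 0 (fun C => Φ C ∧ v ∈ nearS L y C)) := by
    rw [← (Equiv.neg V).tsum_eq (fun v => PB V p h1.le (Ev L 0 (fun C => Φ C ∧ v ∈ nearS L y C)))]
    refine tsum_congr fun x => ?_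
    exact term_eq L hadj hh p h1.le Φ y x
  rw [h2]
  exact ⟨mean_ge L _ 0 Φ y, mean_le L h0 h1 0 hΦ y⟩

end trans

end Run7.h738.PC
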