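import Pool.Agent.Run7.h738.EX.Cnt

/-! # Bond percolation on a layered graph: clusters, patterns, insertion of columns -/

set_option autoImplicit false

namespace Run7.h738.PC

open scoped Classical
open Run7.h738.EX

variable {V : Type} (L : Lay V)

/-- an open step -/
def stp (ω : Sym2 V → Bool) (v w : V) : Prop := L.adj v w ∧ ω s(v, w) = true

/-- the open cluster of `o` -/
def Cl (ω : Sym2 V → Bool) (o : V) : Set V := {x | Relation.ReflTransGen (stp L ω) o x}

theorem self_Cl (ω : Sym2 V → Bool) (o : V) : o ∈ Cl L ω o := Relation.ReflTransGen.refl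

theorem Cl_step {ω : Sym2 V → Bool} {o v w : V} (h : v ∈ Cl L ω o) (h1 : L.adj v w)
    (h2 : ω s(v, w) = true) : w ∈ Cl L ω o := Relation.ReflTransGen.tail h ⟨h1, h2⟩

theorem Cl_ind {ω : Sym2 V → Bool} {o : V} {P : V → Prop} (h0 : P o)
    (h : ∀ v w, v ∈ Cl L ω o → P v → L.adj v w → ω s(v, w) = true → P w) :
    ∀ x ∈ Cl L ω o, P x := by
  intro x hx
  induction hx with
  | refl => exact h0
  | tail h1 h2 ih => exact h _ _ h1 ih h2.1 h2.2

theorem Cl_local {ω ω' : Sym2 V → Bool} {o : V}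
    (h : ∀ v ∈ Cl L ω o, ∀ w, L.adj v w → ω' s(v, w) = ω s(v, w)) : Cl L ω' o = Cl L ω o := by
  apply Set.Subset.antisymm
  · refine Cl_ind L (self_Cl L ω o) ?_
    intro v w _ hv ha hω
    rw [h v hv w ha] at hω
    exact Cl_step L hv ha hω
  · intro x hx
    have : x ∈ Cl L ω' o ∧ x ∈ Cl L ω o := by
      refine Cl_ind L (P := fun x => x ∈ Cl L ω' o ∧ x ∈ Cl L ω o)
        ⟨self_Cl L ω' o, self_Cl L ω o⟩ ?_ x hx
      intro v w hv hv2 ha hω
      refine ⟨Cl_step L hv2.1 ha ?_, Cl_step L hv ha hω⟩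
      rw [h v hv w ha]
      exact hω
    exact this.1

/-- the edges with an end in `A` -/
noncomputable def IE (A : Finset V) : Finset (Sym2 V) :=
  A.biUnion (fun v => (L.nb v).image (fun w => s(v, w)))

theorem mem_IE {A : Finset V} {e : Sym2 V} : e ∈ IE L A ↔ ∃ v ∈ A, ∃ w, L.adj v w ∧ e = s(v, w) := by
  unfold IE
  rw [Finset.mem_biUnion]
  constructor
  · rintro ⟨v, hv, h⟩
    rw [Finset.mem_image] at h
    obtain ⟨w, hw, rfl⟩ := h
    exact ⟨v, hv, w, (L.mem_nb v w).1 hw, rfl⟩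
  · rintro ⟨v, hv, w, hw, rfl⟩
    exact ⟨v, hv, Finset.mem_image_of_mem _ ((L.mem_nb v w).2 hw)⟩

theorem mem_IE' {A : Finset V} {v w : V} (hv : v ∈ A) (h : L.adj v w) : s(v, w) ∈ IE L A :=
  (mem_IE L).2 ⟨v, hv, w, h, rfl⟩

theorem IE_card (A : Finset V) : (IE L A).card ≤ L.Δ * A.card := by
  unfold IE
  refine Finset.card_biUnion_le.trans ?_
  calc _ ≤ ∑ _v ∈ A, L.Δ := Finset.sum_le_sum fun v _ => Finset.card_image_le.trans (L.nb_card v)
    _ = _ := by rw [Finset.sum_const, smul_eq_mul, mul_comm]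

/-- the configuration with the open edges `O` -/
noncomputable def cf (O : Finset (Sym2 V)) : Sym2 V → Bool := fun e => decide (e ∈ O)

theorem cf_iff {O : Finset (Sym2 V)} {e : Sym2 V} : cf O e = true ↔ e ∈ O := by simp [cf]

/-- patterns: the possible clusters, with their open edges -/
def Pat (o : V) (q : Finset V × Finset (Sym2 V)) : Prop :=
  q.2 ⊆ IE L q.1 ∧ Cl L (cf q.2) o = (q.1 : Set V)

/-- the configurations with a given pattern -/
def Cyl (q : Finset V × Finset (Sym2 V)) : Set (Sym2 V → Bool) :=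
  {ω | ∀ e ∈ IE L q.1, ω e = cf q.2 e}

theorem Cyl_Cl {o : V} {q : Finset V × Finset (Sym2 V)} (hq : Pat L o q) {ω : Sym2 V → Bool}
    (hω : ω ∈ Cyl L q) : Cl L ω o = (q.1 : Set V) := by
  rw [← hq.2]
  refine Cl_local L ?_
  intro v hv w ha
  refine hω _ (mem_IE' L ?_ ha)
  rw [hq.2] at hv
  exact Finset.mem_coe.1 hv

theorem Cyl_O {o : V} {q : Finset V × Finset (Sym2 V)} (hq : Pat L o q) {ω : Sym2 V → Bool}
    (hω : ω ∈ Cyl L q) : q.2 = (IE L q.1).filter (fun e => ω e = true) := by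
  ext e
  rw [Finset.mem_filter]
  constructor
  · intro h
    exact ⟨hq.1 h, by rw [hω e (hq.1 h), cf_iff]; exact h⟩
  · rintro ⟨h1, h2⟩
    rw [hω e h1, cf_iff] at h2
    exact h2

theorem exists_pat {ω : Sym2 V → Bool} {o : V} (h : (Cl L ω o).Finite) :
    ∃ q, Pat L o q ∧ ω ∈ Cyl L q := by
  have hA : (h.toFinset : Set V) = Cl L ω o := h.coe_toFinset
  set A := h.toFinset
  set O := (IE L A).filter (fun e => ω e = true) with hO
  have hcf : ∀ e ∈ IE L A, ω e = cf O e := by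
    intro e he
    by_cases h1 : ω e = true
    · rw [h1, eq_comm, cf_iff, hO, Finset.mem_filter]
      exact ⟨he, h1⟩
    · have h2 : ¬ cf O e = true := by
        rw [cf_iff, hO, Finset.mem_filter]
        exact fun h => h1 h.2
      rw [Bool.not_eq_true] at h1 h2
      rw [h1, h2]
  refine ⟨(A, O), ⟨Finset.filter_subset _ _, ?_⟩, hcf⟩
  show Cl L (cf O) o = (A : Set V)
  rw [hA]
  refine Cl_local L ?_
  intro v hv w ha
  rw [← hA] at hv
  exact (hcf _ (mem_IE' L (Finset.mem_coe.1 hv) ha)).symm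

theorem pat_unique {o : V} {q q' : Finset V × Finset (Sym2 V)} (hq : Pat L o q) (hq' : Pat L o q')
    {ω : Sym2 V → Bool} (hω : ω ∈ Cyl L q) (hω' : ω ∈ Cyl L q') : q = q' := by
  have h1 : q.1 = q'.1 := by
    have := (Cyl_Cl L hq hω).symm.trans (Cyl_Cl L hq' hω')
    exact_mod_cast this
  have h2 : q.2 = q'.2 := by rw [Cyl_O L hq hω, Cyl_O L hq' hω', h1]
  exact Prod.ext h1 h2

/-! ### Insertion of columns -/

/-- nothing above `v` -/
def TopF (A : Finset V) (v : V) : Prop := ∀ t, 1 ≤ t → L.up^[t] v ∉ A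

/-- the new vertices above `v` -/
noncomputable def col (k : ℕ) (v : V) : Finset V := (Finset.range k).image (fun t => L.up^[t + 1] v)

/-- the new edges above `v` -/
noncomputable def colE (k : ℕ) (v : V) : Finset (Sym2 V) :=
  (Finset.range k).image (fun t => s(L.up^[t] v, L.up^[t + 1] v))

/-- the new cluster -/
noncomputable def insA (A : Finset V) (k : ℕ) (S : Finset V) : Finset V := A ∪ S.biUnion (col L k)

/-- its open edges -/
noncomputable def insO (O : Finset (Sym2 V)) (k : ℕ) (S : Finset V) : Finset (Sym2 V) :=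
  O ∪ S.biUnion (colE L k)

theorem mem_col {k : ℕ} {v u : V} : u ∈ col L k v ↔ ∃ t < k, u = L.up^[t + 1] v := by
  unfold col
  rw [Finset.mem_image]
  constructor
  · rintro ⟨t, ht, h⟩
    exact ⟨t, Finset.mem_range.1 ht, h.symm⟩
  · rintro ⟨t, ht, h⟩
    exact ⟨t, Finset.mem_range.2 ht, h.symm⟩

theorem mem_colE {k : ℕ} {v : V} {e : Sym2 V} :
    e ∈ colE L k v ↔ ∃ t < k, e = s(L.up^[t] v, L.up^[t + 1] v) := by
  unfold colE
  rw [Finset.mem_image]
  constructor
  · rintro ⟨t, ht, h⟩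
    exact ⟨t, Finset.mem_range.1 ht, h.symm⟩
  · rintro ⟨t, ht, h⟩
    exact ⟨t, Finset.mem_range.2 ht, h.symm⟩

theorem mem_insA {A : Finset V} {k : ℕ} {S : Finset V} {u : V} :
    u ∈ insA L A k S ↔ u ∈ A ∨ ∃ v ∈ S, ∃ t < k, u = L.up^[t + 1] v := by
  unfold insA
  rw [Finset.mem_union, Finset.mem_biUnion]
  simp only [mem_col]

theorem mem_insO {O : Finset (Sym2 V)} {k : ℕ} {S : Finset V} {e : Sym2 V} :
    e ∈ insO L O k S ↔ e ∈ O ∨ ∃ v ∈ S, ∃ t < k, e = s(L.up^[t] v, L.up^[t + 1] v) := by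
  unfold insO
  rw [Finset.mem_union, Finset.mem_biUnion]
  simp only [mem_colE]

theorem it_mem {A : Finset V} {k : ℕ} {S : Finset V} (hS : S ⊆ A) {v : V} (hv : v ∈ S) {t : ℕ}
    (ht : t ≤ k) : L.up^[t] v ∈ insA L A k S := by
  rw [mem_insA]
  rcases Nat.eq_zero_or_pos t with h | h
  · subst h
    exact Or.inl (hS hv)
  · refine Or.inr ⟨v, hv, t - 1, by omega, ?_⟩
    congr 2
    omega

theorem adj_it (t : ℕ) (v : V) : L.adj (L.up^[t] v) (L.up^[t + 1] v) := by
  rw [Function.iterate_succ_apply']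
  exact L.adj_up _

/-- both ends of an open edge of a pattern are in the cluster -/
theorem pat_ends {o : V} {q : Finset V × Finset (Sym2 V)} (hq : Pat L o q) {v w : V}
    (h : s(v, w) ∈ q.2) : v ∈ q.1 ∧ w ∈ q.1 ∧ L.adj v w := by
  obtain ⟨a, ha, b, hab, he⟩ := (mem_IE L).1 (hq.1 h)
  have hb : b ∈ q.1 := by
    have h1 : a ∈ Cl L (cf q.2) o := by
      rw [hq.2]
      exact ha
    have h2 : b ∈ Cl L (cf q.2) o := Cl_step L h1 hab (by rw [cf_iff, ← he]; exact h)
    rw [hq.2] at h2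
    exact Finset.mem_coe.1 h2
  rw [Sym2.eq_iff] at he
  rcases he with ⟨rfl, rfl⟩ | ⟨rfl, rfl⟩
  · exact ⟨ha, hb, hab⟩
  · exact ⟨hb, ha, L.symm _ _ hab⟩

/-- the new pattern is a pattern -/
theorem ins_pat {o : V} {q : Finset V × Finset (Sym2 V)} (hq : Pat L o q) (k : ℕ) {S : Finset V}
    (hS : S ⊆ q.1) : Pat L o (insA L q.1 k S, insO L q.2 k S) := by
  have hoA : o ∈ q.1 := by
    have := self_Cl L (cf q.2) o
    rw [hq.2] at this
    exact Finset.mem_coe.1 this
  constructor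
  · intro e he
    rw [mem_insO] at he
    rw [mem_IE]
    rcases he with h | ⟨v, hv, t, ht, rfl⟩
    · obtain ⟨a, ha, b, hab, he⟩ := (mem_IE L).1 (hq.1 h)
      exact ⟨a, (mem_insA L).2 (Or.inl ha), b, hab, he⟩
    · exact ⟨_, it_mem L hS hv ht.le, _, adj_it L t v, rfl⟩
  · apply Set.Subset.antisymm
    · refine Cl_ind L ?_ ?_
      · exact Finset.mem_coe.2 ((mem_insA L).2 (Or.inl hoA))
      · intro v w _ hv ha he
        rw [cf_iff, mem_insO] at he
        rw [Finset.mem_coe]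
        rcases he with h | ⟨x, hx, t, ht, h⟩
        · exact (mem_insA L).2 (Or.inl (pat_ends L hq h).2.1)
        · rw [Sym2.eq_iff] at h
          rcases h with ⟨-, rfl⟩ | ⟨-, rfl⟩
          · exact it_mem L hS hx ht
          · exact it_mem L hS hx ht.le
    · intro x hx
      rw [Finset.mem_coe, mem_insA] at hx
      have hA : ∀ y ∈ q.1, y ∈ Cl L (cf (insO L q.2 k S)) o := by
        intro y hy
        have hy2 : y ∈ Cl L (cf q.2) o := by
          rw [hq.2]
          exact hy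
        refine Cl_ind L (P := fun y => y ∈ Cl L (cf (insO L q.2 k S)) o) (self_Cl L _ _) ?_ y hy2
        intro v w _ hv ha he
        refine Cl_step L hv ha ?_
        rw [cf_iff] at he ⊢
        exact (mem_insO L).2 (Or.inl he)
      rcases hx with hx | ⟨v, hv, t, ht, rfl⟩
      · exact hA x hx
      · have : ∀ t, t ≤ k → L.up^[t] v ∈ Cl L (cf (insO L q.2 k S)) o := by
          intro t
          induction t with
          | zero =>
            intro _
            exact hA v (hS hv)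
          | succ t ih =>
            intro ht
            refine Cl_step L (ih (by omega)) (adj_it L t v) ?_
            rw [cf_iff, mem_insO]
            exact Or.inr ⟨v, hv, t, by omega, rfl⟩
        exact this (t + 1) (by omega)

/-! ### The inverse -/

/-- `M` is the maximal height -/
def MaxH (A : Finset V) (M : ℤ) : Prop := (∃ v ∈ A, L.h v = M) ∧ ∀ v ∈ A, L.h v ≤ M

theorem MaxH_unique {A : Finset V} {M M' : ℤ} (h : MaxH L A M) (h' : MaxH L A M') : M = M' := by
  obtain ⟨⟨v, hv, h1⟩, h2⟩ := h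
  obtain ⟨⟨v', hv', h1'⟩, h2'⟩ := h'
  have := h2 v' hv'
  have := h2' v hv
  omega

theorem exists_MaxH {A : Finset V} (hA : A.Nonempty) : ∃ M, MaxH L A M := by
  obtain ⟨v, hv, h⟩ := Finset.exists_max_image A L.h hA
  exact ⟨L.h v, ⟨v, hv, rfl⟩, h⟩

/-- good sites: at depth `δ` below the maximal height, with nothing above -/
noncomputable def GS (A : Finset V) (δ : ℕ) : Finset V :=
  A.filter (fun v => TopF L A v ∧ ∃ M, MaxH L A M ∧ L.h v = M - δ)

theorem mem_GS {A : Finset V} {δ : ℕ} {v : V} {M : ℤ} (hM : MaxH L A M) :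
    v ∈ GS L A δ ↔ v ∈ A ∧ TopF L A v ∧ L.h v = M - δ := by
  unfold GS
  rw [Finset.mem_filter]
  constructor
  · rintro ⟨h1, h2, M', h3, h4⟩
    rw [MaxH_unique L hM h3]
    exact ⟨h1, h2, h4⟩
  · rintro ⟨h1, h2, h3⟩
    exact ⟨h1, h2, M, hM, h3⟩

section
variable {A : Finset V} {δ : ℕ} {S : Finset V} {M : ℤ}

theorem ins_MaxH (hM : MaxH L A M) (hS : S ⊆ GS L A δ) (hne : S.Nonempty) :
    MaxH L (insA L A (δ + 1) S) (M + 1) := by
  constructor
  · obtain ⟨v, hv⟩ := hne
    have h := (mem_GS L hM).1 (hS hv)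
    refine ⟨L.up^[δ + 1] v, (mem_insA L).2 (Or.inr ⟨v, hv, δ, by omega, rfl⟩), ?_⟩
    rw [L.h_it, h.2.2]
    push_cast
    ring
  · intro u hu
    rw [mem_insA] at hu
    rcases hu with hu | ⟨v, hv, t, ht, rfl⟩
    · have := hM.2 u hu
      omega
    · have h := (mem_GS L hM).1 (hS hv)
      rw [L.h_it, h.2.2]
      push_cast
      omega

/-- the chosen good sites are seen in the new cluster -/
theorem mem_S (hM : MaxH L A M) (hS : S ⊆ GS L A δ) {v : V} :
    v ∈ S ↔ L.h v = M - δ ∧ L.up^[δ + 1] v ∈ insA L A (δ + 1) S := by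
  constructor
  · intro hv
    exact ⟨((mem_GS L hM).1 (hS hv)).2.2,
      (mem_insA L).2 (Or.inr ⟨v, hv, δ, by omega, rfl⟩)⟩
  · rintro ⟨h1, h2⟩
    rw [mem_insA] at h2
    rcases h2 with h2 | ⟨w, hw, t, ht, h2⟩
    · have := hM.2 _ h2
      rw [L.h_it, h1] at this
      push_cast at this
      omega
    · have h3 := ((mem_GS L hM).1 (hS hw)).2.2
      have h4 := congrArg L.h h2
      rw [L.h_it, L.h_it, h1, h3] at h4
      push_cast at h4
      have h5 : t = δ := by omega
      rw [h5] at h2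
      have h6 := L.up_inj.iterate _ h2
      rw [h6]
      exact hw

/-- the old cluster is seen in the new one -/
theorem mem_A (hM : MaxH L A M) (hS : S ⊆ GS L A δ) {u : V} :
    u ∈ A ↔ u ∈ insA L A (δ + 1) S ∧
      ¬ (∃ t ≤ δ, ∃ w, L.h w = M + 1 ∧ w ∈ insA L A (δ + 1) S ∧ w = L.up^[t] u) := by
  constructor
  · intro hu
    refine ⟨(mem_insA L).2 (Or.inl hu), ?_⟩
    rintro ⟨t, ht, w, hw1, hw2, hw3⟩
    rw [mem_insA] at hw2
    rcases hw2 with h | ⟨v, hv, s, hs, h⟩
    · have := hM.2 _ h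
      omega
    · have hv2 := (mem_GS L hM).1 (hS hv)
      have h4 := congrArg L.h h
      rw [L.h_it, hv2.2.2, hw1] at h4
      push_cast at h4
      have h5 : s = δ := by omega
      rw [h5, hw3] at h
      have e : δ + 1 = t + (δ + 1 - t) := by omega
      rw [e, Function.iterate_add_apply] at h
      have h6 := L.up_inj.iterate _ h
      exact hv2.2.1 (δ + 1 - t) (by omega) (h6 ▸ hu)
  · rintro ⟨h1, h2⟩
    rw [mem_insA] at h1
    rcases h1 with h1 | ⟨v, hv, t, ht, h1⟩
    · exact h1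
    · exfalso
      apply h2
      have hv2 := (mem_GS L hM).1 (hS hv)
      refine ⟨δ - t, by omega, L.up^[δ + 1] v, ?_, ?_, ?_⟩
      · rw [L.h_it, hv2.2.2]
        push_cast
        ring
      · exact (mem_insA L).2 (Or.inr ⟨v, hv, δ, by omega, rfl⟩)
      · rw [h1, ← Function.iterate_add_apply, show δ - t + (t + 1) = δ + 1 by omega]

/-- the old open edges -/
theorem O_eq {o : V} {q : Finset V × Finset (Sym2 V)} (hq : Pat L o q) (hM : MaxH L q.1 M)
    (hS : S ⊆ GS L q.1 δ) :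
    q.2 = (insO L q.2 (δ + 1) S).filter (fun e => ∀ x ∈ e, x ∈ q.1) := by
  ext e
  rw [Finset.mem_filter, mem_insO]
  constructor
  · intro h
    refine ⟨Or.inl h, ?_⟩
    induction e using Sym2.ind with
    | _ v w =>
      have h1 := pat_ends L hq h
      intro x hx
      rw [Sym2.mem_iff] at hx
      rcases hx with rfl | rfl
      · exact h1.1
      · exact h1.2.1
  · rintro ⟨h1 | ⟨v, hv, t, ht, rfl⟩, h2⟩
    · exact h1
    · exfalso
      have h3 := h2 (L.up^[t + 1] v) (Sym2.mem_mk_right _ _)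
      exact ((mem_GS L hM).1 (hS hv)).2.1 (t + 1) (by omega) h3

end

/-- the insertion is injective -/
theorem ins_inj {o : V} {δ : ℕ} {q q' : Finset V × Finset (Sym2 V)} (hq : Pat L o q)
    (hq' : Pat L o q') {S S' : Finset V} (hS : S ⊆ GS L q.1 δ) (hS' : S' ⊆ GS L q'.1 δ)
    (hne : S.Nonempty) (hne' : S'.Nonempty)
    (hA : insA L q.1 (δ + 1) S = insA L q'.1 (δ + 1) S')
    (hO : insO L q.2 (δ + 1) S = insO L q'.2 (δ + 1) S') : q = q' ∧ S = S' := by
  have hn : ∀ {q : Finset V × Finset (Sym2 V)}, Pat L o q → q.1.Nonempty := by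
    intro q hq
    refine ⟨o, ?_⟩
    have := self_Cl L (cf q.2) o
    rw [hq.2] at this
    exact Finset.mem_coe.1 this
  obtain ⟨M, hM⟩ := exists_MaxH L (hn hq)
  obtain ⟨M', hM'⟩ := exists_MaxH L (hn hq')
  have t1 := ins_MaxH L hM hS hne
  have t2 := ins_MaxH L hM' hS' hne'
  rw [← hA] at t2
  have hMM : M = M' := by
    have := MaxH_unique L t1 t2
    omega
  subst hMM
  have e1 : q.1 = q'.1 := by
    ext u
    rw [mem_A L hM hS, mem_A L hM' hS', hA]
  have e2 : S = S' := by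
    ext v
    rw [mem_S L hM hS, mem_S L hM' hS', hA]
  refine ⟨Prod.ext e1 ?_, e2⟩
  rw [O_eq L hq hM hS, O_eq L hq' hM' hS', hO]
  refine Finset.filter_congr ?_
  intro e _
  rw [e1]

end Run7.h738.PC
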