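import Pool.Agent.Run7.h738.PC.Clu

/-! # Weights of patterns, double counting -/

set_option autoImplicit false

namespace Run7.h738.PC

open scoped Classical ENNReal
open Run7.h738.EX

variable {V : Type} (L : Lay V)

/-- the weight of a pattern -/
noncomputable def W (a b : ℝ≥0∞) (q : Finset V × Finset (Sym2 V)) : ℝ≥0∞ :=
  a ^ q.2.card * b ^ (IE L q.1 \ q.2).card

theorem insO_card (O : Finset (Sym2 V)) (k : ℕ) (S : Finset V) :
    (insO L O k S).card ≤ O.card + k * S.card := by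
  unfold insO
  refine (Finset.card_union_le _ _).trans (Nat.add_le_add_left ?_ _)
  refine Finset.card_biUnion_le.trans ?_
  calc _ ≤ ∑ _v ∈ S, k := by
        refine Finset.sum_le_sum fun v _ => ?_
        unfold colE
        refine Finset.card_image_le.trans ?_
        rw [Finset.card_range]
    _ = _ := by rw [Finset.sum_const, smul_eq_mul, mul_comm]

theorem insC_card (q : Finset V × Finset (Sym2 V)) (k : ℕ) (S : Finset V) :
    (IE L (insA L q.1 k S) \ insO L q.2 k S).card ≤ (IE L q.1 \ q.2).card + L.Δ * (k * S.card) := by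
  have h1 : IE L (insA L q.1 k S) \ insO L q.2 k S ⊆
      (IE L q.1 \ q.2) ∪ IE L (S.biUnion (col L k)) := by
    intro e he
    rw [Finset.mem_sdiff, mem_IE] at he
    obtain ⟨⟨v, hv, w, hw, rfl⟩, h2⟩ := he
    rw [Finset.mem_union, Finset.mem_sdiff]
    unfold insA at hv
    rw [Finset.mem_union] at hv
    rcases hv with hv | hv
    · left
      refine ⟨mem_IE' L hv hw, fun h => h2 ?_⟩
      exact (mem_insO L).2 (Or.inl h)
    · right
      exact mem_IE' L hv hw
  refine (Finset.card_le_card h1).trans ((Finset.card_union_le _ _).trans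
    (Nat.add_le_add_left ?_ _))
  refine (IE_card L _).trans (Nat.mul_le_mul_left _ ?_)
  refine Finset.card_biUnion_le.trans ?_
  calc _ ≤ ∑ _v ∈ S, k := by
        refine Finset.sum_le_sum fun v _ => ?_
        unfold col
        refine Finset.card_image_le.trans ?_
        rw [Finset.card_range]
    _ = _ := by rw [Finset.sum_const, smul_eq_mul, mul_comm]

/-- the cost of the insertion -/
theorem W_ins {a b : ℝ≥0∞} (ha : a ≤ 1) (hb : b ≤ 1) (q : Finset V × Finset (Sym2 V)) (k : ℕ)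
    (S : Finset V) : W L a b q * ((a * b ^ L.Δ) ^ k) ^ S.card ≤
      W L a b (insA L q.1 k S, insO L q.2 k S) := by
  unfold W
  have h1 : a ^ (q.2.card + k * S.card) ≤ a ^ (insO L q.2 k S).card :=
    pow_le_pow_right_of_le_one' ha (insO_card L q.2 k S)
  have h2 : b ^ ((IE L q.1 \ q.2).card + L.Δ * (k * S.card)) ≤
      b ^ (IE L (insA L q.1 k S) \ insO L q.2 k S).card :=
    pow_le_pow_right_of_le_one' hb (insC_card L q k S)
  refine le_trans (le_of_eq ?_) (mul_le_mul' h1 h2)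
  rw [pow_add, pow_add, ← pow_mul, mul_pow, ← pow_mul]
  ring

/-- the patterns with a property -/
def PI (o : V) (Φ : Finset V → Prop) : Type := {q : Finset V × Finset (Sym2 V) // Pat L o q ∧ Φ q.1}

/-- the total weight -/
noncomputable def Z (a b : ℝ≥0∞) (o : V) (Φ : Finset V → Prop) : ℝ≥0∞ :=
  ∑' q : PI L o Φ, W L a b q.1

/-- increasing properties -/
def Incr (Φ : Finset V → Prop) : Prop := ∀ A B : Finset V, A ⊆ B → Φ A → Φ B

/-- double counting -/
theorem dblC {a b : ℝ≥0∞} (ha : a ≤ 1) (hb : b ≤ 1) (o : V) {Φ : Finset V → Prop} (hΦ : Incr Φ)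
    (δ r N : ℕ) (hr : 1 ≤ r) :
    Z L a b o (fun A => Φ A ∧ N ≤ (GS L A δ).card) *
      ((N.choose r : ℝ≥0∞) * ((a * b ^ L.Δ) ^ (δ + 1)) ^ r) ≤ Z L a b o Φ := by
  set Ψ : Finset V → Prop := fun A => Φ A ∧ N ≤ (GS L A δ).card with hΨ
  set c := ((a * b ^ L.Δ) ^ (δ + 1)) ^ r with hc
  let X := Σ q : PI L o Ψ, {S : Finset V // S ∈ (GS L q.1.1 δ).powersetCard r}
  have hsub : ∀ x : X, x.2.1 ⊆ GS L x.1.1.1 δ ∧ x.2.1.card = r :=
    fun x => Finset.mem_powersetCard.1 x.2.2
  have hGS : ∀ A : Finset V, GS L A δ ⊆ A := fun A => Finset.filter_subset _ _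
  let f : X → PI L o Φ := fun x =>
    ⟨(insA L x.1.1.1 (δ + 1) x.2.1, insO L x.1.1.2 (δ + 1) x.2.1),
      ins_pat L x.1.2.1 (δ + 1) ((hsub x).1.trans (hGS _)),
      hΦ _ _ (by
        unfold insA
        exact Finset.subset_union_left) x.1.2.2.1⟩
  have hf : Function.Injective f := by
    rintro ⟨q, S⟩ ⟨q', S'⟩ h
    have hs := hsub ⟨q, S⟩
    have hs' := hsub ⟨q', S'⟩
    simp only at hs hs'
    have h1 := congrArg (fun z : PI L o Φ => z.1.1) h
    have h2 := congrArg (fun z : PI L o Φ => z.1.2) h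
    simp only [f] at h1 h2
    have hne : S.1.Nonempty := by
      rw [← Finset.card_pos, hs.2]
      exact hr
    have hne' : S'.1.Nonempty := by
      rw [← Finset.card_pos, hs'.2]
      exact hr
    obtain ⟨e1, e2⟩ := ins_inj L q.2.1 q'.2.1 hs.1 hs'.1 hne hne' h1 h2
    have e3 : q = q' := Subtype.ext e1
    subst e3
    have e4 : S = S' := Subtype.ext e2
    rw [e4]
  have h1 : ∑' x : X, W L a b (f x).1 ≤ Z L a b o Φ :=
    ENNReal.tsum_comp_le_tsum_of_injective hf (fun q : PI L o Φ => W L a b q.1)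
  refine le_trans ?_ h1
  have h2 : ∑' x : X, W L a b x.1.1 * c ≤ ∑' x : X, W L a b (f x).1 := by
    refine ENNReal.tsum_le_tsum fun x => ?_
    have := W_ins L ha hb x.1.1 (δ + 1) x.2.1
    rw [(hsub x).2] at this
    exact this
  refine le_trans ?_ h2
  rw [ENNReal.tsum_sigma (fun (q : PI L o Ψ) (_ : {S : Finset V //
    S ∈ (GS L q.1.1 δ).powersetCard r}) => W L a b q.1 * c)]
  unfold Z
  rw [← ENNReal.tsum_mul_right]
  refine ENNReal.tsum_le_tsum fun q => ?_
  rw [tsum_fintype, Finset.sum_const, Finset.card_univ, Fintype.card_coe, Finset.card_powersetCard,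
    nsmul_eq_mul]
  calc W L a b q.1 * ((N.choose r : ℝ≥0∞) * c) = (N.choose r : ℝ≥0∞) * (W L a b q.1 * c) := by ring
    _ ≤ _ := by
        gcongr
        exact q.2.2.2

/-- the exponential tail of the number of the good sites of depth `δ` -/
theorem tailC {a b : ℝ≥0∞} (ha : a ≤ 1) (hb : b ≤ 1) (o : V) {Φ : Finset V → Prop} (hΦ : Incr Φ)
    (δ r B : ℕ) (hr : 1 ≤ r) (hB : 3 ≤ (B : ℝ≥0∞) * (a * b ^ L.Δ) ^ (δ + 1)) :
    3 ^ r * Z L a b o (fun A => Φ A ∧ (1 + B) * r ≤ (GS L A δ).card) ≤ Z L a b o Φ := by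
  refine le_trans ?_ (dblC L ha hb o hΦ δ r ((1 + B) * r) hr)
  rw [mul_comm]
  refine mul_le_mul' (le_refl _) ?_
  calc (3 : ℝ≥0∞) ^ r ≤ ((B : ℝ≥0∞) * (a * b ^ L.Δ) ^ (δ + 1)) ^ r := pow_le_pow_left' hB r
    _ = ((B ^ r : ℕ) : ℝ≥0∞) * ((a * b ^ L.Δ) ^ (δ + 1)) ^ r := by
        rw [mul_pow]
        push_cast
        rfl
    _ ≤ _ := by
        gcongr
        exact choose_ge B r

/-! ### Near-maximal sites -/

/-- the sites within `y` of the supporting hyperplane -/
noncomputable def NMF (A : Finset V) (y : ℕ) : Finset V :=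
  A.filter (fun v => ∀ w ∈ A, L.h w ≤ L.h v + y)

theorem NMF_le (A : Finset V) (y : ℕ) :
    (NMF L A y).card ≤ (y + 1) * ∑ δ ∈ Finset.range (y + 1), (GS L A δ).card := by
  rcases A.eq_empty_or_nonempty with rfl | hne
  · simp [NMF]
  obtain ⟨M, hM⟩ := exists_MaxH L hne
  set G := (Finset.range (y + 1)).biUnion (fun δ => GS L A δ) with hG
  have hGc : G.card ≤ ∑ δ ∈ Finset.range (y + 1), (GS L A δ).card := Finset.card_biUnion_le
  have key : ∀ v ∈ NMF L A y, ∃ t, t ≤ y ∧ L.up^[t] v ∈ G := by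
    intro v hv
    unfold NMF at hv
    rw [Finset.mem_filter] at hv
    obtain ⟨hv1, hv2⟩ := hv
    obtain ⟨w, hw, hwM⟩ := hM.1
    have h1 := hv2 w hw
    have hb : ∀ t, L.up^[t] v ∈ A → t ≤ y := by
      intro t ht
      have := hM.2 _ ht
      rw [L.h_it] at this
      omega
    -- the last visit above `v`
    obtain ⟨t, ht, hmax⟩ : ∃ t, L.up^[t] v ∈ A ∧ ∀ s, t < s → L.up^[s] v ∉ A := by
      have hP : ∃ m, ∃ t, L.up^[t] v ∈ A ∧ t + m = y := ⟨y, 0, hv1, by omega⟩
      obtain ⟨t, ht, hm⟩ := Nat.find_spec hP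
      refine ⟨t, ht, fun s hs hsA => ?_⟩
      have := Nat.find_min' hP ⟨s, hsA, (by have := hb s hsA; omega : s + (y - s) = y)⟩
      have := hb s hsA
      omega
    refine ⟨t, hb t ht, ?_⟩
    rw [hG, Finset.mem_biUnion]
    have h2 := hM.2 _ ht
    rw [L.h_it] at h2
    refine ⟨(M - L.h v - t).toNat, Finset.mem_range.2 (by omega), ?_⟩
    rw [mem_GS L hM]
    refine ⟨ht, ?_, ?_⟩
    · intro s hs
      rw [← Function.iterate_add_apply]
      exact hmax (s + t) (by omega)
    · rw [L.h_it]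
      omega
  choose! t ht using key
  have h1 : (NMF L A y).card ≤ ((Finset.range (y + 1)) ×ˢ G).card := by
    refine Finset.card_le_card_of_injOn (fun v => (t v, L.up^[t v] v)) ?_ ?_
    · intro v hv
      rw [Finset.mem_coe, Finset.mem_product, Finset.mem_range]
      have := ht v hv
      exact ⟨Nat.lt_succ_of_le this.1, this.2⟩
    · intro v _ w _ h
      simp only [Prod.mk.injEq] at h
      rw [h.1] at h
      exact L.up_inj.iterate _ h.2
  rw [Finset.card_product, Finset.card_range] at h1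
  exact h1.trans (Nat.mul_le_mul_left _ hGc)

theorem y_pow3 (y : ℕ) : (y + 1) * (y + 1) * (y + 2) ≤ 2 * 8 ^ y := by
  induction y with
  | zero => norm_num
  | succ y ih =>
    rw [pow_succ]
    nlinarith [Nat.zero_le (y ^ 3), Nat.zero_le (y ^ 2)]

end Run7.h738.PC
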