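import Pool.Agent.Run7.h738.PC.Cnt

/-! # The probability of the cluster events -/

set_option autoImplicit false
set_option linter.deprecated false

namespace Run7.h738.PC

open scoped Classical ENNReal
open Run7.h738.EX MeasureTheory

variable {V : Type} (L : Lay V)

/-- Bernoulli bond percolation -/
noncomputable def PB (V : Type) (p : NNReal) (hp : p ≤ 1) : Measure (Sym2 V → Bool) :=
  Measure.infinitePi (fun _ : Sym2 V => (PMF.bernoulli p hp).toMeasure)

instance (V : Type) (p : NNReal) (hp : p ≤ 1) : IsProbabilityMeasure (PB V p hp) := by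
  unfold PB; infer_instance

theorem ber_true (p : NNReal) (hp : p ≤ 1) : (PMF.bernoulli p hp).toMeasure {true} = p := by
  rw [PMF.toMeasure_apply_singleton _ _ (MeasurableSet.singleton true)]
  simp [PMF.bernoulli_apply]

theorem ber_false (p : NNReal) (hp : p ≤ 1) :
    (PMF.bernoulli p hp).toMeasure {false} = ((1 - p : NNReal) : ℝ≥0∞) := by
  rw [PMF.toMeasure_apply_singleton _ _ (MeasurableSet.singleton false)]
  simp [PMF.bernoulli_apply]

theorem Cyl_eq (q : Finset V × Finset (Sym2 V)) :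
    Cyl L q = Set.pi (IE L q.1 : Set (Sym2 V)) (fun e => {cf q.2 e}) := by
  ext ω
  simp [Cyl, Set.mem_pi]

theorem Cyl_meas (q : Finset V × Finset (Sym2 V)) : MeasurableSet (Cyl L q) := by
  rw [Cyl_eq]
  exact MeasurableSet.pi (Finset.countable_toSet _) (fun e _ => MeasurableSet.singleton _)

theorem Cyl_prob (p : NNReal) (hp : p ≤ 1) {q : Finset V × Finset (Sym2 V)}
    (hq : q.2 ⊆ IE L q.1) :
    PB V p hp (Cyl L q) = W L (p : ℝ≥0∞) ((1 - p : NNReal) : ℝ≥0∞) q := by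
  rw [Cyl_eq]
  unfold PB
  rw [Measure.infinitePi_pi _ (fun e _ => MeasurableSet.singleton _)]
  unfold W
  have h1 : ∏ e ∈ q.2, (PMF.bernoulli p hp).toMeasure {cf q.2 e} = (p : ℝ≥0∞) ^ q.2.card := by
    rw [← Finset.prod_const]
    refine Finset.prod_congr rfl fun e he => ?_
    rw [(cf_iff (e := e)).2 he, ber_true]
  have h2 : ∏ e ∈ IE L q.1 \ q.2, (PMF.bernoulli p hp).toMeasure {cf q.2 e} =
      ((1 - p : NNReal) : ℝ≥0∞) ^ (IE L q.1 \ q.2).card := by
    rw [← Finset.prod_const]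
    refine Finset.prod_congr rfl fun e he => ?_
    have : cf q.2 e = false := by
      rw [← Bool.not_eq_true, cf_iff]
      exact (Finset.mem_sdiff.1 he).2
    rw [this, ber_false]
  rw [← Finset.prod_sdiff hq, h1, h2, mul_comm]

/-- the cluster of `o` is finite and has a property -/
def Ev (o : V) (Φ : Set V → Prop) : Set (Sym2 V → Bool) :=
  {ω | (Cl L ω o).Finite ∧ Φ (Cl L ω o)}

theorem Ev_eq (o : V) (Φ : Set V → Prop) :
    Ev L o Φ = ⋃ q : PI L o (fun A => Φ (A : Set V)), Cyl L q.1 := by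
  ext ω
  rw [Set.mem_iUnion]
  constructor
  · rintro ⟨h1, h2⟩
    obtain ⟨q, hq, hω⟩ := exists_pat L h1
    have h3 := Cyl_Cl L hq hω
    exact ⟨⟨q, hq, by rw [h3] at h2; exact h2⟩, hω⟩
  · rintro ⟨q, hω⟩
    have h3 := Cyl_Cl L q.2.1 hω
    refine ⟨?_, ?_⟩
    · rw [h3]
      exact Finset.finite_toSet _
    · show Φ (Cl L ω o)
      rw [h3]
      exact q.2.2

theorem Ev_meas [Countable V] (o : V) (Φ : Set V → Prop) : MeasurableSet (Ev L o Φ) := by
  rw [Ev_eq]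
  have : Countable (PI L o (fun A => Φ (A : Set V))) := by
    unfold PI
    infer_instance
  exact MeasurableSet.iUnion fun q => Cyl_meas L q.1

theorem Ev_prob [Countable V] (p : NNReal) (hp : p ≤ 1) (o : V) (Φ : Set V → Prop) :
    PB V p hp (Ev L o Φ) =
      Z L (p : ℝ≥0∞) ((1 - p : NNReal) : ℝ≥0∞) o (fun A => Φ (A : Set V)) := by
  rw [Ev_eq]
  have : Countable (PI L o (fun A => Φ (A : Set V))) := by
    unfold PI
    infer_instance
  rw [measure_iUnion]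
  · unfold Z
    refine tsum_congr fun q => ?_
    exact Cyl_prob L p hp q.2.1.1
  · intro q q' hne
    rw [Function.onFun, Set.disjoint_left]
    intro ω hω hω'
    exact hne (Subtype.ext (pat_unique L q.2.1 q'.2.1 hω hω'))
  · exact fun q => Cyl_meas L q.1

/-- the sites of a set within `y` of the supporting hyperplane -/
def nearS (y : ℕ) (C : Set V) : Set V := {v | v ∈ C ∧ ∀ w ∈ C, L.h w ≤ L.h v + y}

theorem nearS_coe (y : ℕ) (A : Finset V) : nearS L y (A : Set V) = (NMF L A y : Set V) := by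
  ext v
  unfold nearS NMF
  simp

/-- the constant -/
noncomputable def KP (p : NNReal) : ℝ := 10 / ((p : ℝ) * (1 - p) ^ L.Δ)

/-- the number `B` for the depth `δ` -/
noncomputable def BB (p : NNReal) (δ : ℕ) : ℕ := ⌈3 / ((p : ℝ) * (1 - p) ^ L.Δ) ^ (δ + 1)⌉₊

theorem q_pos {p : NNReal} (h0 : 0 < p) (h1 : p < 1) : 0 < (p : ℝ) * (1 - p) ^ L.Δ := by
  have h2 : (0 : ℝ) < p := by exact_mod_cast h0
  have h3 : (p : ℝ) < 1 := by exact_mod_cast h1
  exact mul_pos h2 (pow_pos (by linarith) _)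

theorem q_le {p : NNReal} (h1 : p < 1) : (p : ℝ) * (1 - p) ^ L.Δ ≤ 1 := by
  have h2 : (0 : ℝ) ≤ p := p.2
  have h3 : (p : ℝ) < 1 := by exact_mod_cast h1
  have h4 : (1 - (p : ℝ)) ^ L.Δ ≤ 1 := pow_le_one₀ (by linarith) (by linarith)
  nlinarith [pow_nonneg (show (0 : ℝ) ≤ 1 - p by linarith) L.Δ]

theorem BB_ok {p : NNReal} (h0 : 0 < p) (h1 : p < 1) (δ : ℕ) :
    3 ≤ (BB L p δ : ℝ≥0∞) * ((p : ℝ≥0∞) * ((1 - p : NNReal) : ℝ≥0∞) ^ L.Δ) ^ (δ + 1) := by
  have hq := q_pos L h0 h1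
  have h2 : (3 : ℝ) ≤ (BB L p δ : ℝ) * ((p : ℝ) * (1 - p) ^ L.Δ) ^ (δ + 1) := by
    rw [← div_le_iff₀ (by positivity)]
    exact Nat.le_ceil _
  have h3 : (3 : NNReal) ≤ (BB L p δ : NNReal) * (p * (1 - p) ^ L.Δ) ^ (δ + 1) := by
    rw [← NNReal.coe_le_coe]
    push_cast [NNReal.coe_sub h1.le]
    exact h2
  exact_mod_cast h3

theorem BB_le {p : NNReal} (h0 : 0 < p) (h1 : p < 1) {δ y : ℕ} (hδ : δ ≤ y) :
    (1 + (BB L p δ : ℝ)) ≤ 5 / ((p : ℝ) * (1 - p) ^ L.Δ) ^ (y + 1) := by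
  have hq := q_pos L h0 h1
  have hq1 := q_le L h1
  set q := (p : ℝ) * (1 - p) ^ L.Δ with hqd
  have h2 : (BB L p δ : ℝ) ≤ 3 / q ^ (δ + 1) + 1 := (Nat.ceil_lt_add_one (by positivity)).le
  have h3 : 1 / q ^ (δ + 1) ≤ 1 / q ^ (y + 1) :=
    one_div_le_one_div_of_le (by positivity) (pow_le_pow_of_le_one hq.le hq1 (by omega))
  have h4 : 1 ≤ 1 / q ^ (y + 1) := by
    rw [le_div_iff₀ (by positivity), one_mul]
    exact pow_le_one₀ hq.le hq1
  have e1 : 3 / q ^ (δ + 1) = 3 * (1 / q ^ (δ + 1)) := by ring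
  have e2 : 5 / q ^ (y + 1) = 5 * (1 / q ^ (y + 1)) := by ring
  rw [e2]
  rw [e1] at h2
  linarith

/-- **The tail.** -/
theorem tail_perc [Countable V] {p : NNReal} (h0 : 0 < p) (h1 : p < 1) (o : V)
    {Φ : Set V → Prop} (hΦ : ∀ A B : Set V, A ⊆ B → Φ A → Φ B) (y : ℕ) {x : ℝ} (hx : 0 ≤ x) :
    PB V p h1.le (Ev L o (fun C => Φ C ∧ KP L p ^ (1 + y) * (1 + x) < ((nearS L y C).ncard : ℝ))) ≤
      ENNReal.ofReal (Real.exp (-x)) * PB V p h1.le (Ev L o Φ) := by
  set r := ⌈x⌉₊ + y + 1 with hr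
  set P := PB V p h1.le with hP
  have hr1 : 1 ≤ r := by omega
  set a := (p : ℝ≥0∞) with ha
  set b := ((1 - p : NNReal) : ℝ≥0∞) with hb
  have ha1 : a ≤ 1 := by
    rw [ha]
    exact_mod_cast h1.le
  have hb1 : b ≤ 1 := by
    rw [hb]
    exact_mod_cast tsub_le_self
  have hincr : Incr (fun A : Finset V => Φ (A : Set V)) :=
    fun A B h => hΦ _ _ (Finset.coe_subset.2 h)
  set E : ℕ → Set V → Prop := fun δ C => Φ C ∧ ∃ A : Finset V, (A : Set V) = C ∧
    (1 + BB L p δ) * r ≤ (GS L A δ).card with hE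
  have hsub : Ev L o (fun C => Φ C ∧ KP L p ^ (1 + y) * (1 + x) < ((nearS L y C).ncard : ℝ)) ⊆
      ⋃ δ ∈ Finset.range (y + 1), Ev L o (E δ) := by
    rintro ω ⟨hfin, hΦω, hbig⟩
    rw [Set.mem_iUnion₂]
    by_contra hc
    push Not at hc
    set A := hfin.toFinset with hA
    have hAC : (A : Set V) = Cl L ω o := hfin.coe_toFinset
    have hall : ∀ δ ∈ Finset.range (y + 1), ((GS L A δ).card : ℝ) ≤
        5 / ((p : ℝ) * (1 - p) ^ L.Δ) ^ (y + 1) * r := by
      intro δ hδ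
      have h2 : ¬ (1 + BB L p δ) * r ≤ (GS L A δ).card := by
        intro h
        exact hc δ hδ ⟨hfin, hΦω, A, hAC, h⟩
      push Not at h2
      have h3 : ((GS L A δ).card : ℝ) ≤ (1 + (BB L p δ : ℝ)) * r := by
        exact_mod_cast h2.le
      refine h3.trans (mul_le_mul_of_nonneg_right ?_ (Nat.cast_nonneg _))
      exact BB_le L h0 h1 (by
        rw [Finset.mem_range] at hδ
        omega)
    have hq := q_pos L h0 h1
    set q := (p : ℝ) * (1 - p) ^ L.Δ with hqd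
    have h5 : ((nearS L y (Cl L ω o)).ncard : ℝ) ≤
        (y + 1) * ∑ δ ∈ Finset.range (y + 1), ((GS L A δ).card : ℝ) := by
      rw [← hAC, nearS_coe, Set.ncard_coe_finset]
      exact_mod_cast NMF_le L A y
    have h6 := Finset.sum_le_sum hall
    rw [Finset.sum_const, Finset.card_range, nsmul_eq_mul] at h6
    push_cast at h6
    have h7 : (r : ℝ) ≤ (1 + x) * (y + 2) := by
      rw [hr]
      push_cast
      have := (Nat.ceil_lt_add_one hx).le
      have hy : (0 : ℝ) ≤ y := Nat.cast_nonneg _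
      nlinarith
    have h8 : (((y + 1) * (y + 1) * (y + 2) : ℕ) : ℝ) ≤ 2 * 8 ^ y := by exact_mod_cast y_pow3 y
    push_cast at h8
    have hy0 : (0 : ℝ) ≤ y := Nat.cast_nonneg _
    have h9 : ((nearS L y (Cl L ω o)).ncard : ℝ) ≤ KP L p ^ (1 + y) * (1 + x) := by
      calc ((nearS L y (Cl L ω o)).ncard : ℝ)
          ≤ (y + 1) * ∑ δ ∈ Finset.range (y + 1), ((GS L A δ).card : ℝ) := h5
        _ ≤ (y + 1) * (((y : ℝ) + 1) * (5 / q ^ (y + 1) * r)) :=
            mul_le_mul_of_nonneg_left h6 (by positivity)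
        _ ≤ (y + 1) * (((y : ℝ) + 1) * (5 / q ^ (y + 1) * ((1 + x) * (y + 2)))) := by
            gcongr
        _ = (5 / q ^ (y + 1) * (1 + x)) * (((y : ℝ) + 1) * (y + 1) * (y + 2)) := by ring
        _ ≤ (5 / q ^ (y + 1) * (1 + x)) * (2 * 8 ^ y) :=
            mul_le_mul_of_nonneg_left h8 (by positivity)
        _ = (10 * 8 ^ y) * (1 / q ^ (y + 1)) * (1 + x) := by ring
        _ ≤ (10 * 10 ^ y) * (1 / q ^ (y + 1)) * (1 + x) := by
            gcongr
            norm_num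
        _ = KP L p ^ (1 + y) * (1 + x) := by
            unfold KP
            rw [← hqd, div_pow, add_comm 1 y, pow_succ (10 : ℝ) y]
            ring
    linarith
  have hE1 : ∀ δ, 3 ^ r * P (Ev L o (E δ)) ≤ P (Ev L o Φ) := by
    intro δ
    have h2 := tailC L ha1 hb1 o hincr δ r (BB L p δ) hr1 (BB_ok L h0 h1 δ)
    rw [hP, Ev_prob, Ev_prob]
    refine le_trans (le_of_eq ?_) h2
    congr 2
    funext A
    rw [hE]
    simp only
    congr 1
    apply propext
    constructor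
    · rintro ⟨A', h3, h4⟩
      rw [Finset.coe_inj] at h3
      rw [← h3]
      exact h4
    · intro h
      exact ⟨A, rfl, h⟩
  have hE2 : ∀ δ, P (Ev L o (E δ)) ≤ P (Ev L o Φ) / 3 ^ r := by
    intro δ
    rw [ENNReal.le_div_iff_mul_le (Or.inl (by positivity)) (Or.inl (by finiteness)), mul_comm]
    exact hE1 δ
  refine (measure_mono hsub).trans ((measure_biUnion_finset_le _ _).trans ?_)
  refine (Finset.sum_le_sum fun δ _ => hE2 δ).trans ?_
  rw [Finset.sum_const, Finset.card_range, nsmul_eq_mul]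
  have h5 : ((y : ℝ) + 1) * Real.exp x ≤ 3 ^ r := by
    have h6 : Real.exp x ≤ 3 ^ ⌈x⌉₊ := by
      have h7 : Real.exp x ≤ Real.exp (⌈x⌉₊ : ℝ) := Real.exp_le_exp.2 (Nat.le_ceil x)
      have h8 : Real.exp (⌈x⌉₊ : ℝ) = Real.exp 1 ^ ⌈x⌉₊ := by
        rw [← Real.exp_nat_mul, mul_one]
      rw [h8] at h7
      refine h7.trans (pow_le_pow_left₀ (Real.exp_pos _).le ?_ _)
      have := Real.exp_one_lt_d9
      linarith
    have h9 : ((y : ℝ) + 1) ≤ 3 ^ (y + 1) := by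
      have h10 : (y + 1) ≤ 3 ^ (y + 1) := (Nat.lt_pow_self (by norm_num)).le
      exact_mod_cast h10
    have e : (3 : ℝ) ^ r = 3 ^ (y + 1) * 3 ^ ⌈x⌉₊ := by
      rw [hr, ← pow_add]
      congr 1
      omega
    rw [e]
    exact mul_le_mul h9 h6 (Real.exp_pos _).le (by positivity)
  have h6 : ((y + 1 : ℕ) : ℝ≥0∞) / 3 ^ r ≤ ENNReal.ofReal (Real.exp (-x)) := by
    have h7 : ((y : ℝ) + 1) / 3 ^ r ≤ Real.exp (-x) := by
      rw [div_le_iff₀ (by positivity), Real.exp_neg, ← div_eq_inv_mul, le_div_iff₀ (Real.exp_pos x)]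
      exact h5
    have h8 : ((y + 1 : ℕ) : ℝ≥0∞) / 3 ^ r = ENNReal.ofReal (((y : ℝ) + 1) / 3 ^ r) := by
      rw [ENNReal.ofReal_div_of_pos (by positivity), ENNReal.ofReal_pow (by norm_num)]
      congr 1
      · rw [show ((y : ℝ) + 1) = ((y + 1 : ℕ) : ℝ) by push_cast; ring, ENNReal.ofReal_natCast]
      · norm_num
    rw [h8]
    exact ENNReal.ofReal_le_ofReal h7
  calc ((y + 1 : ℕ) : ℝ≥0∞) * (P (Ev L o Φ) / 3 ^ r)
      = (((y + 1 : ℕ) : ℝ≥0∞) / 3 ^ r) * P (Ev L o Φ) := by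
        rw [div_eq_mul_inv, div_eq_mul_inv]
        ring
    _ ≤ _ := mul_le_mul' h6 (le_refl _)

end Run7.h738.PC
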