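import Pool.Agent.Run7.h738.PC.Trans
import Pool.Agent.Run7.h738.EX.Zd

/-! # Volumes; the cubic lattices -/

set_option autoImplicit false
set_option linter.deprecated false

namespace Run7.h738.PC

open scoped Classical ENNReal
open Run7.h738.EX MeasureTheory

section
variable {V : Type} (L : Lay V)

/-- the mean volume as a sum of probabilities -/
theorem sum_vol [Countable V] (μ : Measure (Sym2 V → Bool)) (o : V) (Φ : Set V → Prop) :
    ∑' v : V, μ (Ev L o (fun C => Φ C ∧ v ∈ C)) =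
      ∫⁻ ω in Ev L o Φ, ((Cl L ω o).ncard : ℝ≥0∞) ∂μ := by
  have h1 : ∀ v, μ (Ev L o (fun C => Φ C ∧ v ∈ C)) =
      ∫⁻ ω, (Ev L o (fun C => Φ C ∧ v ∈ C)).indicator 1 ω ∂μ := by
    intro v
    rw [lintegral_indicator_one (Ev_meas L o _)]
  simp_rw [h1]
  rw [← lintegral_tsum (fun v => (measurable_one.indicator (Ev_meas L o _)).aemeasurable),
    ← lintegral_indicator (Ev_meas L o Φ)]
  refine lintegral_congr fun ω => ?_
  by_cases hω : ω ∈ Ev L o Φ
  · rw [Set.indicator_of_mem hω]
    obtain ⟨hfin, hΦ⟩ := hω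
    set A := hfin.toFinset with hA
    have hAC : (A : Set V) = Cl L ω o := hfin.coe_toFinset
    have h2 : ∀ v, (Ev L o (fun C => Φ C ∧ v ∈ C)).indicator
        (1 : (Sym2 V → Bool) → ℝ≥0∞) ω = if v ∈ A then 1 else 0 := by
      intro v
      have h3 : ω ∈ Ev L o (fun C => Φ C ∧ v ∈ C) ↔ v ∈ A := by
        rw [← Finset.mem_coe, hAC]
        exact ⟨fun h => h.2.2, fun h => ⟨hfin, hΦ, h⟩⟩
      by_cases h4 : v ∈ A
      · rw [Set.indicator_of_mem (h3.2 h4), if_pos h4]
        rfl
      · rw [Set.indicator_of_notMem (fun h => h4 (h3.1 h)), if_neg h4]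
    simp_rw [h2]
    rw [tsum_eq_sum (s := A) (fun v hv => if_neg hv), ← hAC,
      Set.ncard_coe_finset, Finset.sum_congr rfl (fun v hv => if_pos hv), Finset.sum_const]
    simp
  · rw [Set.indicator_of_notMem hω]
    rw [ENNReal.tsum_eq_zero]
    intro v
    exact Set.indicator_of_notMem (fun h => hω (Ev_mono L o (fun C h => h.1) h)) _

end

section
variable {d : ℕ}

theorem nnb_add (u v w : Fin d → ℤ) : nnb (v + u) (w + u) ↔ nnb v w := by
  unfold nnb
  simp only [Pi.add_apply, add_sub_add_right_eq_sub]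

end

end Run7.h738.PC
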